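import Pool.Agent.H.MP_682a55_lc.B

set_option autoImplicit false

namespace Pool.Agent.Results.MP_682a55_lc.Undec

open Pool.Agent.H.MP_682a55_lc Pool.Agent.Lib.helper21

theorem result (H : Type) [Group H] [Infinite H] :
    ¬∃ f : ℕ →. Bool, Partrec f ∧ ∀ φ : Fm 0, ∃ b ∈ f φ.code, (b = true ↔ φ ∈ Theory H) := by
  obtain ⟨Q, _, M, q, h⟩ := Queue.exists_cm0
  cases nonempty_fintype Q
  refine fun ⟨f, h1, h2⟩ => h ?_
  choose b h2 h3 using h2
  let r : Q → Fin (Finset.univ.sup M.reg + 1) := fun q => ⟨_, Nat.lt_succ_of_le (Finset.le_sup (Finset.mem_univ q))⟩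
  let c := Fintype.equivFin (Ix Q (Finset.univ.sup M.reg))
  refine (ComputablePred.computable_iff.2 ⟨_, (h1.comp (c_F M q r c).to_comp).of_eq_tot fun k => h2 _, rfl⟩).not.of_eq
    fun k => ?_
  rw [h3]
  refine ⟨fun h => by_contra fun h' => h fun V E _ _ G _ e => ?_, fun h h' => ?_⟩
  · obtain ⟨v, e⟩ := s_exN.1 e
    exact h' (sound (fun _ => rfl) ((s_F ..).1 e))
  · obtain ⟨N, G, a, w, e⟩ := complete (H := H) (r := r) (fun _ => rfl) h
    exact h' _ _ G a (s_exN.2 ⟨w ∘ c.symm, (s_F ..).2 (by simpa [Function.comp_def] using e)⟩)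

end Pool.Agent.Results.MP_682a55_lc.Undec
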